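import Pool.Agent.Helper32.CL.St3

/-!
# Project CL, module GJ
-/

set_option autoImplicit false

namespace Pool.Agent.Helper73.CL

open Helper32.CL Helper35.PI Helper35.PI2 Pool.Agent.Helper35.CL
open scoped ContDiff Manifold Topology ENNReal BigOperators
open MeasureTheory Set Filter

section

variable {N : ℕ}

/-- the projections as continuous linear maps -/
private lemma dvA_zero_GJ (l : ℝ) (φ : ℝ × ℝ × ℝ × ℝ → ℝ) (A : Fin 2 → Fin 2 → EE N)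
    (T : Fin 2 → Fin 2 → Fin 2 → EE N) (ν : EE N) (v : Fin 2 → ℝ) :
    dvA 0 l (cφ φ) A T ν v = -hph l (cφ φ) A T ν v := by
  unfold dvA dVa
  ring

private lemma hph_lin_GJ (l : ℝ) (P : (ℝ × ℝ × ℝ × ℝ) →L[ℝ] ℝ) (A : Fin 2 → Fin 2 → EE N)
    (T : Fin 2 → Fin 2 → Fin 2 → EE N) (ν : EE N) (v : Fin 2 → ℝ) :
    hph l (cφ (fun p => P p)) A T ν v = P (h4 l A T ν v) := by
  unfold hph cφ
  have h1 : ∀ y, fderiv ℝ (fun p => P p) y = P := fun y => P.hasFDerivAt.fderiv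
  simp only [h1]
  simp

private lemma smooth_lin_GJ (P : (ℝ × ℝ × ℝ × ℝ) →L[ℝ] ℝ) : (cφ (fun p => P p)).Smooth := by
  refine ⟨?_, ?_, ?_, ?_⟩
  · exact P.contDiff
  · exact contDiff_const
  · exact contDiff_const
  · exact contDiff_const

/-- the last coordinate -/
private noncomputable def P4_GJ : (ℝ × ℝ × ℝ × ℝ) →L[ℝ] ℝ :=
  (ContinuousLinearMap.snd ℝ ℝ ℝ).comp ((ContinuousLinearMap.snd ℝ ℝ (ℝ × ℝ)).comp
    (ContinuousLinearMap.snd ℝ ℝ (ℝ × ℝ × ℝ)))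

/-- the first coordinate -/
private noncomputable def P1_GJ : (ℝ × ℝ × ℝ × ℝ) →L[ℝ] ℝ :=
  ContinuousLinearMap.fst ℝ ℝ (ℝ × ℝ × ℝ)

private lemma c4_GJ : cφ (fun p => p.2.2.2) = cφ (fun p => P4_GJ p) := rfl
private lemma c1_GJ : cφ (fun p => p.1) = cφ (fun p => P1_GJ p) := rfl

private lemma DW_eq_GJ {l : ℝ} (hl : l ≠ 0) (A : Fin 2 → Fin 2 → EE N)
    (T : Fin 2 → Fin 2 → Fin 2 → EE N) (v : Fin 2 → ℝ) (k : Fin 2) :
    DW l A T v k = l • DE l⁻¹ A T v k := by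
  unfold DW DE
  rw [smul_sub, smul_smul, mul_inv_cancel₀ hl, one_smul]

private lemma Wl_eq_GJ {l : ℝ} (hl : l ≠ 0) (A : Fin 2 → Fin 2 → EE N) (ν : EE N) :
    Wl l A ν = l • (Hv A + l⁻¹ • ν) := by
  unfold Wl
  rw [smul_add, smul_smul, mul_inv_cancel₀ hl, one_smul, add_comm]

end

/-- **Module GJ.** -/
theorem hGJ (hMD : StMD) (hSQ : StSQ) : StGJ := by
  intro hsm N M _ _ _ F hF t ht q
  obtain ⟨A, T, ν, v, hA, hT, hX, hH, hZ, hW, hn, hi, -, hc⟩ := hMD 2 N M F hF q t ht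
  have hl : (-2 * t) ≠ 0 := by
    have : 0 < -2 * t := by linarith
    exact this.ne'
  have hl2 : (0 : ℝ) < 4 * t ^ 2 := by
    have := sq_pos_of_pos (show 0 < -2 * t by linarith)
    linarith
  have hsq : (-2 * t) ^ 2 = 4 * t ^ 2 := by ring
  refine ⟨A, T, ν, v, hA, hT, hX, hH, hZ, ?_, ?_, ?_, ?_, ?_⟩
  · -- the gradient of `W`
    have h1 := (hc 0 (-2 * t) _ (smooth_lin_GJ P4_GJ)).2
    rw [dvA_zero_GJ, hph_lin_GJ, zero_mul, zero_div, neg_zero, Real.exp_zero, one_mul] at h1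
    have h2 : P4_GJ (h4 (-2 * t) A T ν v) = Helper32.CL.hW (-2 * t) A T ν v := rfl
    rw [h2] at h1
    have h3 : g1F F q t = (∑ k, ‖DW (-2 * t) A T v k‖ ^ 2)
        + (XX A * ‖Wl (-2 * t) A ν‖ ^ 2
          - ∑ i, ∑ j, (inner ℝ (A i j) (Wl (-2 * t) A ν) : ℝ) ^ 2) := by
      unfold g1F
      rw [c4_GJ, h1]
      unfold wF
      rw [hW, hX, hH]
      have e : deriv (fun s => (cφ fun p => P4_GJ p).φ (i4F 2 (-2 * t) F q s)) t
          = deriv (fun s => ‖wvF 2 (-2 * t) F q s‖ ^ 2) t := rfl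
      rw [e]
      unfold Helper32.CL.hW
      ring
    have h4 := hSQ.1 2 N A (Wl (-2 * t) A ν)
    rw [le_div_iff₀ hl2, h3]
    have h5 : ∀ k, ‖DW (-2 * t) A T v k‖ ^ 2 = 4 * t ^ 2 * ‖DE (-2 * t)⁻¹ A T v k‖ ^ 2 := by
      intro k
      rw [DW_eq_GJ hl, norm_smul, mul_pow, Real.norm_eq_abs, sq_abs, hsq]
    simp only [h5]
    rw [← Finset.mul_sum]
    linarith
  · rw [eq_div_iff hl2.ne']
    unfold wF
    rw [hW, Wl_eq_GJ hl, norm_smul, mul_pow, Real.norm_eq_abs, sq_abs, hsq]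
    ring
  · have h1 := (hc 0 0 _ (smooth_lin_GJ P1_GJ)).2
    rw [dvA_zero_GJ, hph_lin_GJ, zero_mul, zero_div, neg_zero, Real.exp_zero, one_mul] at h1
    have h2 : P1_GJ (h4 0 A T ν v) = Helper35.PI.hX A T := rfl
    rw [h2] at h1
    have h3 := hSQ.2.1 N A T hA
    have h4 : g2F F q t = 5 * XX A ^ 2 - Helper35.PI.hX A T / 2 := by
      unfold g2F
      rw [c1_GJ, h1, hX]
      have e : deriv (fun s => (cφ fun p => P1_GJ p).φ (i4F 2 0 F q s)) t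
          = deriv (fun s => AA (n := 2) F q s) t := rfl
      rw [e]
      ring
    rw [h4]
    exact h3
  · rw [hn, le_div_iff₀ hl2]
    have : ((-2 * t)⁻¹) ^ 2 * (4 * t ^ 2) = 1 := by
      rw [← hsq, ← mul_pow, inv_mul_cancel₀ hl, one_pow]
    have h0 := sq_nonneg ‖ν‖
    nlinarith [h0]
  · intro δ hδ
    have h1 := (hc (-2 * t)⁻¹ (-2 * t) _ (hsm δ hδ)).2
    have e : deriv (fun s => (cD δ).φ (i4F 2 (-2 * t) F q s)) t
        = deriv (fun s => phF δ F q s) t := rfl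
    have e2 : phF δ F q t = fD δ (J3 A) := by
      unfold phF J3 YY
      rw [hX, hH, hZ]
    unfold IgF
    rw [h1, e, e2, hi, hH, hn]
    unfold ggF Ig YY
    rw [hn]
    ring

end Pool.Agent.Helper73.CL
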