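import Pool.Agent.Helper26.CL.St
import Pool.Agent.Helper84.LE.M_Box
import Pool.Agent.Helper84.LE.M_Jf

/-! # Project CM (MP_65faa7): module C1b (elementary facts on the sines) -/

set_option autoImplicit false

open scoped BigOperators ENNReal Topology
open Pool.LE Pool.NL Filter

namespace Pool.CN

namespace C1bM

variable {d : ℕ}

theorem sum_nb (b : Zd d) (G : Zd d → ℝ) :
    ∑ x ∈ nb b, G x = ∑ i : Fin d, (G (b + Pi.single i 1) + G (b - Pi.single i 1)) := by
  unfold nb
  rw [Finset.sum_union, Finset.sum_image, Finset.sum_image, ← Finset.sum_add_distrib]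
  · intro i _ j _ h
    exact Pool.LE.single_inj (sub_right_injective h)
  · intro i _ j _ h
    exact Pool.LE.single_inj (add_right_injective b h)
  · rw [Finset.disjoint_left]
    intro y h1 h2
    rw [Finset.mem_image] at h1 h2
    obtain ⟨i, -, h1⟩ := h1
    obtain ⟨j, -, h2⟩ := h2
    have h3 : (Pi.single i (1 : ℤ) : Zd d) = -Pi.single j 1 := by
      rw [← h2, sub_eq_add_neg] at h1
      exact add_right_injective b h1
    have h4 := congrFun h3 i
    rw [Pi.neg_apply, Pi.single_eq_same] at h4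
    by_cases hij : i = j
    · rw [hij, Pi.single_eq_same] at h4
      omega
    · rw [Pi.single_eq_of_ne hij] at h4
      omega

/-- the factor of coordinate `i` and the others -/
theorem sk_split (n : ℕ) (k : Fin d → ℕ) (x : Zd d) (i : Fin d) :
    sk n k x = Real.sin (kap n k i * ((x i : ℝ) + 1)) *
      ∏ j ∈ Finset.univ.erase i, Real.sin (kap n k j * ((x j : ℝ) + 1)) := by
  unfold sk
  exact (Finset.mul_prod_erase Finset.univ
    (fun j => Real.sin (kap n k j * ((x j : ℝ) + 1))) (Finset.mem_univ i)).symm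

theorem rest_congr (n : ℕ) (k : Fin d → ℕ) (x y : Zd d) (i : Fin d) (h : ∀ j, j ≠ i → x j = y j) :
    ∏ j ∈ Finset.univ.erase i, Real.sin (kap n k j * ((x j : ℝ) + 1)) =
      ∏ j ∈ Finset.univ.erase i, Real.sin (kap n k j * ((y j : ℝ) + 1)) :=
  Finset.prod_congr rfl fun j hj => by rw [h j (Finset.ne_of_mem_erase hj)]

theorem rest_le (n : ℕ) (k : Fin d → ℕ) (x : Zd d) (i : Fin d) :
    |∏ j ∈ Finset.univ.erase i, Real.sin (kap n k j * ((x j : ℝ) + 1))| ≤ 1 := by
  rw [Finset.abs_prod]
  exact Finset.prod_le_one (fun j _ => abs_nonneg _) fun j _ => Real.abs_sin_le_one _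

theorem sk_pair (n : ℕ) (k : Fin d → ℕ) (b : Zd d) (i : Fin d) :
    sk n k (b + Pi.single i 1) + sk n k (b - Pi.single i 1) =
      2 * Real.cos (kap n k i) * sk n k b := by
  have h1 : ∀ j, j ≠ i → (b + Pi.single i 1 : Zd d) j = b j := by
    intro j hj
    rw [Pi.add_apply, Pi.single_eq_of_ne hj, add_zero]
  have h2 : ∀ j, j ≠ i → (b - Pi.single i 1 : Zd d) j = b j := by
    intro j hj
    rw [Pi.sub_apply, Pi.single_eq_of_ne hj, sub_zero]
  rw [sk_split n k (b + Pi.single i 1) i, sk_split n k (b - Pi.single i 1) i, sk_split n k b i,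
    rest_congr n k _ b i h1, rest_congr n k _ b i h2]
  rw [Pi.add_apply, Pi.sub_apply, Pi.single_eq_same]
  have h3 : kap n k i * (((b i + 1 : ℤ) : ℝ) + 1) = kap n k i * ((b i : ℝ) + 1) + kap n k i := by
    push_cast
    ring
  have h4 : kap n k i * (((b i - 1 : ℤ) : ℝ) + 1) = kap n k i * ((b i : ℝ) + 1) - kap n k i := by
    push_cast
    ring
  rw [h3, h4, Real.sin_add, Real.sin_sub]
  ring

theorem abs_sk_le_one (n : ℕ) (k : Fin d → ℕ) (b : Zd d) : |sk n k b| ≤ 1 := by
  unfold sk
  rw [Finset.abs_prod]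
  exact Finset.prod_le_one (fun j _ => abs_nonneg _) fun j _ => Real.abs_sin_le_one _

theorem kap_mul (n : ℕ) (k : Fin d → ℕ) (i : Fin d) : kap n k i * ((n : ℝ) + 1) = k i * Real.pi := by
  unfold kap
  have h : (n : ℝ) + 1 ≠ 0 := by positivity
  field_simp

theorem kap_nonneg (n : ℕ) (k : Fin d → ℕ) (i : Fin d) : 0 ≤ kap n k i := by
  unfold kap
  have h := Real.pi_pos
  positivity

/-- reflection of one factor -/
theorem abs_sin_refl (n : ℕ) (k : Fin d → ℕ) (i : Fin d) (t : ℝ) :
    |Real.sin (kap n k i * (t + 1))| = |Real.sin (kap n k i * ((n : ℝ) - t))| := by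
  have h1 : kap n k i * (t + 1) = k i * Real.pi - kap n k i * ((n : ℝ) - t) := by
    rw [← kap_mul n k i]
    ring
  rw [h1, Real.sin_sub, Real.sin_nat_mul_pi, zero_mul, zero_sub, abs_neg, abs_mul]
  have h2 : |Real.cos ((k i : ℝ) * Real.pi)| = 1 := Real.abs_cos_int_mul_pi (k i)
  rw [h2, one_mul]

theorem sk_le_fac (n : ℕ) (k : Fin d → ℕ) (x : Zd d) (i : Fin d) :
    |sk n k x| ≤ |Real.sin (kap n k i * ((x i : ℝ) + 1))| := by
  rw [sk_split n k x i, abs_mul]
  have h1 := rest_le n k x i
  have h2 := abs_nonneg (Real.sin (kap n k i * ((x i : ℝ) + 1)))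
  nlinarith

theorem abs_sin_mul_le (n : ℕ) (k : Fin d → ℕ) (i : Fin d) (t : ℝ) :
    |Real.sin (kap n k i * t)| ≤ kap n k i * |t| := by
  have h1 := Real.abs_sin_le_abs (x := kap n k i * t)
  rw [abs_mul, abs_of_nonneg (kap_nonneg n k i)] at h1
  exact h1

end C1bM

open C1bM in
theorem hC1b (_hBox : StBox) : StC1b := by
  intro d n k
  refine ⟨?_, abs_sk_le_one n k, ?_, ?_⟩
  · intro b
    rw [C1bM.sum_nb, Finset.sum_congr rfl fun i _ => sk_pair n k b i, ← Finset.sum_mul]
    congr 1
    rw [Pool.LE.JfAux.two_d_Dh]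
    refine Finset.sum_congr rfl fun i _ => ?_
    rw [Real.cos_neg]
    ring
  · intro b hb u hu hu'
    have hB : ∀ x : Zd d, x ∈ Bn d n ↔ ∀ i, 0 ≤ x i ∧ x i < n := by
      intro x
      unfold Bn
      rw [Fintype.mem_piFinset]
      exact forall_congr' fun i => Finset.mem_Ico
    rw [hB] at hb hu'
    push Not at hu'
    obtain ⟨i, hi⟩ := hu'
    have hbi := hb i
    have h0 : Real.sin (kap n k i * ((u i : ℝ) + 1)) = 0 := by
      have h1 : u i = -1 ∨ u i = n := by
        obtain ⟨j, hj | hj⟩ := mem_nb.1 hu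
        · have h2 := congrFun hj i
          rw [Pi.add_apply, Pi.single_apply] at h2
          split_ifs at h2 <;> omega
        · have h2 := congrFun hj i
          rw [Pi.sub_apply, Pi.single_apply] at h2
          split_ifs at h2 <;> omega
      rcases h1 with h1 | h1
      · rw [h1]
        have h2 : kap n k i * (((-1 : ℤ) : ℝ) + 1) = 0 := by
          push_cast
          ring
        rw [h2, Real.sin_zero]
      · rw [h1]
        have h2 : kap n k i * ((((n : ℕ) : ℤ) : ℝ) + 1) = k i * Real.pi := by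
          rw [← kap_mul n k i]
          push_cast
          ring
        rw [h2, Real.sin_nat_mul_pi]
    rw [sk_split n k u i, h0, zero_mul]
  · intro i b x
    have hk := kap_nonneg n k i
    constructor
    · have h1 := sk_le_fac n k x i
      have h2 := abs_sin_mul_le n k i ((x i : ℝ) + 1)
      have h3 : |(x i : ℝ) + 1| ≤ |(b i : ℝ) + 1| + |(x i : ℝ) - b i| := by
        have h4 := abs_add_le ((b i : ℝ) + 1) ((x i : ℝ) - b i)
        have h5 : (b i : ℝ) + 1 + ((x i : ℝ) - b i) = (x i : ℝ) + 1 := by ring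
        rw [h5] at h4
        exact h4
      exact le_trans h1 (le_trans h2 (mul_le_mul_of_nonneg_left h3 hk))
    · have h1 := sk_le_fac n k x i
      rw [abs_sin_refl] at h1
      have h2 := abs_sin_mul_le n k i ((n : ℝ) - x i)
      have h3 : |(n : ℝ) - x i| ≤ |(n : ℝ) - b i| + |(x i : ℝ) - b i| := by
        have h4 := abs_sub ((n : ℝ) - b i) ((x i : ℝ) - b i)
        have h5 : (n : ℝ) - b i - ((x i : ℝ) - b i) = (n : ℝ) - x i := by ring
        rw [h5] at h4
        exact h4
      exact le_trans h1 (le_trans h2 (mul_le_mul_of_nonneg_left h3 hk))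

end Pool.CN
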